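import Pool.Agent.H28.L.R_seed8.Y820.LB.Lor4
import Pool.Agent.H28.L.R_seed8.Y820.LB.Classes
import Pool.Agent.H2.L.R_seed8.TH845.KN.B2

/-!
# Companions for the isometries of Lorentzian lattices with axis near a lattice vector
-/

set_option autoImplicit false

namespace Pool.Agent.W5h66.LX

open MeasureTheory Polynomial Filter
open Pool.Agent.H261R2.CM
open Pool.Agent.Y820.LB
open Pool.Agent.W242.IM (ae_eval_ne m1_mem_LL)

noncomputable section

/-- the constant -/
def cst (L : ℝ) : ℝ := 8 * (Real.log 2 + Real.log (1 + 2 * L)) + (Real.log 2 + Real.log (1 + 3 * L))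

theorem good_lor (L : ℝ) (n : ℕ) (G A : Matrix (Fin n) (Fin n) ℤ)
    (e f : Fin n → ℂ) (l : ℝ) (v : Fin n → ℤ) (q r : ℝ)
    (h : Lz (G.map (Int.castRingHom ℂ)) (A.map (Int.castRingHom ℂ)) e f l)
    (hq : bf (G.map (Int.castRingHom ℂ)) (fun i => (v i : ℂ)) (fun i => (v i : ℂ)) = q)
    (hqL : q ≤ L)
    (hr : rho (G.map (Int.castRingHom ℂ)) e f (fun i => (v i : ℂ)) = r) (hr0 : r ≠ 0)
    (hrL : |r| ≤ L) : Good (cst L) A.charpoly ∧ m1 A.charpoly = l := by
  set Gc := G.map (Int.castRingHom ℂ) with hGc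
  set Ac := A.map (Int.castRingHom ℂ) with hAc
  set vc : Fin n → ℂ := fun i => (v i : ℂ) with hvc
  have hm : m1 A.charpoly = l := by
    unfold m1 toC
    rw [← Matrix.charpoly_map]
    exact h.mahler
  refine ⟨?_, hm⟩
  set w := Pool.Agent.Y820.LB.comp Gc e f vc with hw
  have hL0 : 0 ≤ L := le_trans (abs_nonneg _) hrL
  have hww : bf Gc w w = ((q - 2 * r : ℝ) : ℂ) := by
    rw [hw, h.comp_norm, hq, hr]
    push_cast
    ring
  have hws : star w = w := by
    have h1 : star vc = vc := by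
      ext i
      simp [hvc]
    rw [hw]
    unfold Pool.Agent.Y820.LB.comp
    rw [star_sub, star_sub, star_smul, star_smul, h1, h.reale, h.realf, star_div₀, star_div₀,
      bf_star Gc h.realG, bf_star Gc h.realG, bf_star Gc h.realG, h1, h.reale, h.realf]
  have hV := h.posData.dom_real h.realG h.T_real w (h.P_mem vc) hws (q - 2 * r) hww
  have hS := dom_frac (ι := Fin 2) ![(l : ℂ), (l : ℂ)⁻¹] ![(r : ℂ), (r : ℂ)] (2 * L) (by
    rw [Fin.sum_univ_two]
    simp only [Matrix.cons_val_zero, Matrix.cons_val_one, Complex.norm_real, Real.norm_eq_abs]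
    linarith)
  have hqr : q - 2 * r ≤ 3 * L := by
    have := neg_abs_le r
    linarith
  have hqr0 : 0 ≤ q - 2 * r := by
    have h1 := h.posData.nonneg w (h.P_mem vc)
    rw [hws, hww] at h1
    simpa using h1
  have hlog : Real.log (1 + (q - 2 * r)) ≤ Real.log (1 + 3 * L) :=
    Real.log_le_log (by linarith) (by linarith)
  have hdom := (hS.add hV).le (c' := cst L) (by unfold cst; linarith)
  refine ⟨Matrix.charpoly_monic A, qp G A v,
    (fun τ => bf Gc vc ((ez τ • (1 : Matrix (Fin n) (Fin n) ℂ) - Ac)⁻¹.mulVec vc)),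
    hdom.mono ?_, ?_, ?_⟩
  · filter_upwards [ae_det_ne Ac, ae_det_ne (TT Gc Ac e f)] with τ hA hT
    refine ⟨norm_nonneg _, ?_⟩
    rw [h.resolvent vc _ (ez_ne τ) hA hT, hr]
    refine (norm_add_le _ _).trans (add_le_add (le_of_eq ?_) le_rfl)
    rw [Fin.sum_univ_two]
    rfl
  · filter_upwards [ae_det_ne Ac] with τ hA
    unfold ev1
    rw [toC_qp, qc_eval _ _ _ _ hA]
    congr 1
    unfold toC
    rw [← Matrix.charpoly_map, charpoly_eval_smul]
  · intro z hz1 hz
    have hz0 : z ≠ 0 := by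
      rintro rfl
      rw [norm_zero] at hz1
      linarith
    have h1 : Ac.charpoly.eval z = 0 := by
      rw [Matrix.charpoly_map]
      exact hz
    have h2 := congrArg (fun p => p.eval z) h.char_eq
    simp only [eval_mul, eval_pow, eval_X, eval_sub, eval_C] at h2
    rw [h1, zero_mul] at h2
    have h3 := (mul_eq_zero.mp h2.symm).resolve_left (h.T_root z hz1)
    have hl := h.one_lt
    have h4 : z = l := by
      rcases mul_eq_zero.mp h3 with h5 | h5
      · exact sub_eq_zero.mp h5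
      · exfalso
        rw [sub_eq_zero] at h5
        rw [h5, norm_inv, Complex.norm_real, Real.norm_of_nonneg (by linarith)] at hz1
        have h7 : l⁻¹ < 1 := inv_lt_one_of_one_lt₀ hl
        linarith
    rw [h4, toC_qp]
    refine h.num_ne vc ?_
    rw [hr]
    exact_mod_cast hr0

theorem cst_mono {L L' : ℝ} (h0 : 0 ≤ L) (h : L ≤ L') : cst L ≤ cst L' := by
  unfold cst
  have h1 : Real.log (1 + 2 * L) ≤ Real.log (1 + 2 * L') :=
    Real.log_le_log (by linarith) (by linarith)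
  have h2 : Real.log (1 + 3 * L) ≤ Real.log (1 + 3 * L') :=
    Real.log_le_log (by linarith) (by linarith)
  linarith

/-- good polynomials with constants depending on the measure -/
theorem good_BC (c : ℝ → ℝ) (hc : Monotone c) (T : Set ℝ)
    (hT : ∀ x ∈ T, ∃ P : ℤ[X], Good (c x) P ∧ x = m1 P) : Pool.Agent.TH845.KN.BC T := by
  intro B
  refine ⟨max 0 (Real.log (max B 1) + c B), ?_⟩
  rintro x ⟨hx, hxB⟩
  obtain ⟨P, hP, hxP⟩ := hT x hx
  have hcx : c x ≤ c B := hc (Set.mem_Iio.mp hxB).le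
  rcases good_pair (c x) P hP with h1 | ⟨D, A, C, h1, h2, h3, h4, h5, h6, h7⟩
  · have h2 : mx1 (1 : ℤ[X]) 1 ≤ max 0 (Real.log (max B 1) + c B) := by
      refine le_trans (le_of_eq ?_) (le_max_left _ _)
      unfold mx1
      simp [ev1_one]
    have h3 := m1_mem_LL (1 : ℤ[X]) 1 one_ne_zero one_ne_zero isRelPrime_one_left _ h2
    rw [m1_one] at h3
    rw [hxP, h1]
    exact h3
  · rw [hxP, h6]
    refine m1_mem_LL A C h2 h3 h4 _ (le_trans ?_ (le_max_right _ _))
    have h8 : 0 < m1 A := lt_of_lt_of_le one_pos (one_le_m1 h2)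
    have h9 : Real.log (m1 A) ≤ Real.log (max B 1) := by
      refine Real.log_le_log h8 (le_max_of_le_left ?_)
      rw [← h6, ← hxP]
      exact (Set.mem_Iio.mp hxB).le
    linarith

/-- the real form -/
theorem good_real (L : ℝ) (n : ℕ) (G A : Matrix (Fin n) (Fin n) ℤ)
    (e f : Fin n → ℝ) (l : ℝ) (v : Fin n → ℤ)
    (h1 : G.transpose = G) (h2 : A.transpose * G * A = G) (h3 : 1 < l)
    (h4 : (A.map (Int.castRingHom ℝ)).mulVec e = l • e)
    (h5 : (A.map (Int.castRingHom ℝ)).mulVec f = l⁻¹ • f)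
    (h7 : ∀ x : Fin n → ℝ, x ≠ 0 → rf G e x = 0 → rf G f x = 0 → 0 < rf G x x)
    (hq : rf G (fun i => (v i : ℝ)) (fun i => (v i : ℝ)) ≤ L)
    (hr0 : rf G e (fun i => (v i : ℝ)) * rf G f (fun i => (v i : ℝ)) ≠ 0)
    (hrL : |rf G e (fun i => (v i : ℝ)) * rf G f (fun i => (v i : ℝ))| ≤ L * |rf G e f|) :
    Good (cst L) A.charpoly ∧ m1 A.charpoly = l := by
  have h6 : rf G e f ≠ 0 := by
    intro h0
    rw [h0, abs_zero, mul_zero] at hrL
    exact hr0 (abs_eq_zero.mp (le_antisymm hrL (abs_nonneg _)))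
  have hL := lz_of G A e f l h1 h2 h3 h4 h5 h6 h7
  have hv : (fun i => (v i : ℂ)) = fun i => (((v i : ℝ)) : ℂ) := by
    ext i
    push_cast
    rfl
  refine good_lor L n G A _ _ l v (rf G (fun i => (v i : ℝ)) (fun i => (v i : ℝ)))
    (rf G e (fun i => (v i : ℝ)) * rf G f (fun i => (v i : ℝ)) / rf G e f) hL ?_ hq ?_ ?_ ?_
  · rw [hv, bf_ofReal]
  · unfold rho
    rw [hv, bf_ofReal, bf_ofReal, bf_ofReal]
    push_cast
    rfl
  · exact div_ne_zero hr0 h6
  · rw [abs_div, div_le_iff₀ (abs_pos.mpr h6)]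
    exact hrL

end

end Pool.Agent.W5h66.LX
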